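import Pool.Agent.helper51.VR.Spec

/-!
# Row vr:PWR (powers with exponents in the group ring)
-/

set_option autoImplicit false
set_option linter.unusedSectionVars false

namespace Pool.Agent.VR

open Pool.Agent.RB NumberField IsDedekindDomain Module
open scoped nonZeroDivisors Real Classical IsMulCommutative

section

variable {F H : Type} [Field F] [NumberField F] [Field H] [NumberField H] [Algebra F H]
  [IsAbelianGalois F H]

/-- `σ x` as a unit -/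
noncomputable def PWR_u (σ : H ≃ₐ[F] H) (x : Hˣ) : Hˣ := Units.map ((σ : H →+* H) : H →* H) x

theorem PWR_u_val (σ : H ≃ₐ[F] H) (x : Hˣ) : (PWR_u σ x : H) = σ (x : H) := rfl

theorem PWR_pw (a : MonoidAlgebra ℤ (H ≃ₐ[F] H)) (x : Hˣ) :
    pw a x = ∏ σ : H ≃ₐ[F] H, PWR_u σ x ^ a.coeff σ := rfl

theorem PWR_mul (σ : H ≃ₐ[F] H) (x y : Hˣ) : PWR_u σ (x * y) = PWR_u σ x * PWR_u σ y :=
  map_mul _ x y

theorem PWR_eq (a : MonoidAlgebra ℤ (H ≃ₐ[F] H)) :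
    a = ∑ σ : H ≃ₐ[F] H, a.coeff σ • MonoidAlgebra.single σ (1 : ℤ) := by
  ext τ
  simp [MonoidAlgebra.coeff_sum, Finsupp.single_apply]

theorem PWR_one {U : Subgroup Hˣ} {φ : Hˣ → MonoidAlgebra ℤ (H ≃ₐ[F] H)} (h : IsGH U φ) :
    φ 1 = 0 := by
  have h1 := h.mul 1 U.one_mem 1 U.one_mem
  rw [mul_one] at h1
  exact left_eq_add.mp h1

/-- the homomorphism on the subgroup -/
noncomputable def PWR_hom {U : Subgroup Hˣ} {φ : Hˣ → MonoidAlgebra ℤ (H ≃ₐ[F] H)} (h : IsGH U φ) :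
    U →* Multiplicative (MonoidAlgebra ℤ (H ≃ₐ[F] H)) where
  toFun u := Multiplicative.ofAdd (φ (u : Hˣ))
  map_one' := by
    change Multiplicative.ofAdd (φ 1) = 1
    rw [PWR_one h]
    rfl
  map_mul' u v := congrArg Multiplicative.ofAdd (h.mul _ u.2 _ v.2)

theorem PWR_phi {U : Subgroup Hˣ} (hU : ∀ (σ : H ≃ₐ[F] H), ∀ x ∈ U, PWR_u σ x ∈ U)
    {φ : Hˣ → MonoidAlgebra ℤ (H ≃ₐ[F] H)} (h : IsGH U φ) (a : MonoidAlgebra ℤ (H ≃ₐ[F] H))
    (x : Hˣ) (hx : x ∈ U) : pw a x ∈ U ∧ φ (pw a x) = a * φ x := by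
  have e1 : pw a x = ((∏ σ : H ≃ₐ[F] H, (⟨PWR_u σ x, hU σ x hx⟩ : U) ^ a.coeff σ : U) : Hˣ) := by
    rw [PWR_pw]
    push_cast
    rfl
  constructor
  · rw [e1]
    exact Subtype.property _
  · have e2 : Multiplicative.ofAdd (φ (pw a x)) = PWR_hom h (∏ σ : H ≃ₐ[F] H,
        (⟨PWR_u σ x, hU σ x hx⟩ : U) ^ a.coeff σ : U) := by
      rw [e1]
      rfl
    rw [map_prod] at e2
    have e3 : φ (pw a x) = ∑ σ : H ≃ₐ[F] H, a.coeff σ • φ (PWR_u σ x) := by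
      have e4 := congrArg Multiplicative.toAdd e2
      rw [toAdd_ofAdd, toAdd_prod] at e4
      rw [e4]
      refine Finset.sum_congr rfl fun σ _ => ?_
      rw [map_zpow, toAdd_zpow]
      rfl
    rw [e3]
    conv_rhs => rw [PWR_eq a, Finset.sum_mul]
    refine Finset.sum_congr rfl fun σ _ => ?_
    rw [h.equiv σ x hx _ (hU σ x hx) (PWR_u_val σ x), smul_mul_assoc]

theorem PWR_conj (a : MonoidAlgebra ℤ (H ≃ₐ[F] H)) (x : Hˣ) (c : H ≃ₐ[F] H)
    (h : (x : H) * c (x : H) = 1) : (pw a x : H) * c (pw a x : H) = 1 := by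
  have h1 : x * PWR_u c x = 1 := Units.ext h
  have h2 : ∀ σ : H ≃ₐ[F] H, PWR_u c (PWR_u σ x) = PWR_u σ (PWR_u c x) := by
    intro σ
    apply Units.ext
    change (c * σ) (x : H) = (σ * c) (x : H)
    rw [mul_comm c σ]
  have h3 : PWR_u c (pw a x) = ∏ σ : H ≃ₐ[F] H, PWR_u σ (PWR_u c x) ^ a.coeff σ := by
    rw [PWR_pw]
    unfold PWR_u
    rw [map_prod]
    refine Finset.prod_congr rfl fun σ _ => ?_
    rw [map_zpow]
    exact congrArg (fun t : Hˣ => t ^ a.coeff σ) (h2 σ)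
  have h4 : pw a x * PWR_u c (pw a x) = 1 := by
    rw [h3, PWR_pw, ← Finset.prod_mul_distrib]
    refine Finset.prod_eq_one fun σ _ => ?_
    rw [← mul_zpow, ← PWR_mul, h1]
    have : PWR_u σ (1 : Hˣ) = 1 := map_one _
    rw [this, one_zpow]
  exact congrArg (fun t : Hˣ => (t : H)) h4

theorem PWR_stab (T V : Set (HOS F)) (σ : H ≃ₐ[F] H) (x : Hˣ) (hx : x ∈ Ut F H T V) (y : Hˣ)
    (hy : (y : H) = σ (x : H)) : y ∈ Ut F H T V := by
  obtain ⟨h1, h2⟩ := hx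
  obtain ⟨-, -, -, -, -, hv, hid, htr, hund⟩ := ORD H
  have key : ∀ P : HOS H, ∃ Q : HOS H, Q.under (𝓞 F) = P.under (𝓞 F) ∧
      ∀ z : H, P.valuation H (σ z) = Q.valuation H z := by
    intro P
    refine ⟨act ((σ.symm : H ≃ₐ[F] H) : H ≃+* H) P, hund F _ P (fun t => (σ.symm).commutes t), ?_⟩
    intro z
    have h3 : act (σ : H ≃+* H) (act ((σ.symm : H ≃ₐ[F] H) : H ≃+* H) P) = P := by
      rw [← htr]
      have h4 : ((σ.symm : H ≃ₐ[F] H) : H ≃+* H).trans (σ : H ≃+* H) = RingEquiv.refl H := by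
        ext t
        exact σ.apply_symm_apply t
      rw [h4, hid]
    have h5 := (hv (σ : H ≃+* H) (act ((σ.symm : H ≃ₐ[F] H) : H ≃+* H) P) z).1
    rw [h3] at h5
    exact h5
  constructor
  · intro P hP
    obtain ⟨Q, hQ, hz⟩ := key P
    have e1 : (y : H) - 1 = σ ((x : H) - 1) := by rw [hy, map_sub, map_one]
    rw [e1, hz]
    exact h1 Q (hQ ▸ hP)
  · intro P hP
    obtain ⟨Q, hQ, hz⟩ := key P
    rw [hy, hz]
    exact h2 Q (hQ ▸ hP)

theorem PWR_ordZ (U : Subgroup Hˣ) (w : HOS H) : IsGH U (fun x : Hˣ => ordZ F w (x : H)) := by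
  obtain ⟨h1, -, -, h4, -⟩ := vr_orz F H w
  constructor
  · intro x _ y _
    exact h1 (x : H) (y : H) x.ne_zero y.ne_zero
  · intro σ x _ y _ hy
    change ordZ F w (y : H) = _
    rw [hy]
    exact h4 σ (x : H)

end

/-- ROW vr:PWR -/
theorem PWR : PWR_stmt := by
  intro F H _ _ _ _ _ _ _ T V
  have hU : ∀ (σ : H ≃ₐ[F] H), ∀ x ∈ Ut F H T V, PWR_u σ x ∈ Ut F H T V := fun σ x hx =>
    PWR_stab T V σ x hx _ (PWR_u_val σ x)
  refine ⟨fun σ x hx y hy => PWR_stab T V σ x hx y hy, fun a x => ⟨?_, ?_, ?_, ?_⟩, ?_, ?_⟩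
  · intro hx
    have w0 : IsGH (Ut F H T V) (fun _ : Hˣ => (0 : MonoidAlgebra ℤ (H ≃ₐ[F] H))) :=
      ⟨fun _ _ _ _ => (add_zero 0).symm, fun _ _ _ _ _ _ => (mul_zero _).symm⟩
    exact (PWR_phi hU w0 a x hx).1
  · intro φ hx hφ
    exact (PWR_phi hU hφ a x hx).2
  · intro w
    exact (PWR_phi (U := ⊤) (fun _ _ _ => Subgroup.mem_top _) (PWR_ordZ ⊤ w) a x
      (Subgroup.mem_top x)).2
  · intro c hc
    exact PWR_conj a x c hc
  · intro φ hφ
    refine ⟨PWR_one hφ, ?_, ?_⟩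
    · intro x hx
      have h1 := hφ.mul x hx x⁻¹ (inv_mem hx)
      rw [mul_inv_cancel, PWR_one hφ] at h1
      exact (neg_eq_of_add_eq_zero_right h1.symm).symm
    · intro x hx n
      induction n with
      | zero => rw [pow_zero, zero_smul, PWR_one hφ]
      | succ n ih => rw [pow_succ, hφ.mul _ (pow_mem hx n) _ hx, ih, succ_nsmul]
  · intro w
    exact PWR_ordZ _ w

end Pool.Agent.VR
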